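import Mathlib

/-!
# Average shadowing with full measure center gives positive entropy
-/

namespace Pool.Agent.Results.MP_090ff9_an.AvgShadowingEntropy

open Set Filter Topology MeasureTheory Finset

/-! ### Definitions -/

section Defs

variable {X : Type*} [MetricSpace X]

/-- The average `(1/n) ∑_{i<n} a i`. -/
noncomputable def avg (a : ℕ → ℝ) (n : ℕ) : ℝ := (∑ i ∈ range n, a i) / n

/-- A `δ`-average-pseudo-orbit. -/
def IsAvgPseudoOrbit (f : X → X) (δ : ℝ) (x : ℕ → X) : Prop :=
  ∃ N : ℕ, ∀ n ≥ N, ∀ k : ℕ, avg (fun i => dist (f (x (i + k))) (x (i + k + 1))) n < δ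

/-- The point `y` `ε`-shadows `x` in average. -/
def AvgShadows (f : X → X) (ε : ℝ) (x : ℕ → X) (y : X) : Prop :=
  limsup (avg fun i => dist (f^[i] y) (x i)) atTop < ε

/-- The average shadowing property. -/
def ASP (f : X → X) : Prop :=
  ∀ ε > 0, ∃ δ > 0, ∀ x : ℕ → X, IsAvgPseudoOrbit f δ x → ∃ y : X, AvgShadows f ε x y

/-- The asymptotic average shadowing property. -/
def AASP (f : X → X) : Prop :=
  ∀ x : ℕ → X, Tendsto (avg fun i => dist (f (x i)) (x (i + 1))) atTop (𝓝 0) →
    ∃ y : X, Tendsto (avg fun i => dist (f^[i] y) (x i)) atTop (𝓝 0)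

/-- `g` is a mistake function with threshold `ε₀` (extended constantly beyond `ε₀`; only the values
`g n ε` with `n ≥ 1` and `ε > 0` matter). -/
structure IsMistake (ε₀ : ℝ) (g : ℕ → ℝ → ℕ) : Prop where
  pos : 0 < ε₀
  mono : ∀ n ≥ 1, ∀ ε, 0 < ε → ε ≤ ε₀ → g n ε ≤ g (n + 1) ε
  lim : ∀ ε, 0 < ε → ε ≤ ε₀ → Tendsto (fun n : ℕ => (g n ε : ℝ) / n) atTop (𝓝 0)
  ext : ∀ n ≥ 1, ∀ ε, ε₀ < ε → g n ε = g n ε₀

/-- The mistake ball `B_n(g;x,ε)`. -/
def mball (f : X → X) (g : ℕ → ℝ → ℕ) (n : ℕ) (x : X) (ε : ℝ) : Set X :=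
  {y | ∃ Λ ⊆ range n, n - g n ε ≤ Λ.card ∧ ∀ j ∈ Λ, dist (f^[j] x) (f^[j] y) < ε}

/-- The almost specification property. -/
def AlmostSpec (f : X → X) : Prop :=
  ∃ (ε₀ : ℝ) (g : ℕ → ℝ → ℕ), IsMistake ε₀ g ∧ ∃ kg : ℝ → ℕ,
    (∀ ε > 0, ∀ n ≥ 1, kg ε ≤ n → g n ε < n) ∧
    ∀ (m : ℕ) (ε : Fin (m + 1) → ℝ) (x : Fin (m + 1) → X) (n : Fin (m + 1) → ℕ),
      (∀ j, 0 < ε j) → (∀ j, 1 ≤ n j) → (∀ j, kg (ε j) ≤ n j) →
      ∃ z : X, ∀ j, f^[∑ i ∈ Finset.Iio j, n i] z ∈ mball f g (n j) (x j) (ε j)

/-- The measure center. -/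
def measureCenter [MeasurableSpace X] (f : X → X) : Set X :=
  (⋃₀ {U : Set X | IsOpen U ∧ ∀ μ : Measure X, IsProbabilityMeasure μ → μ.map f = μ → μ U = 0})ᶜ

/-- Topological mixing. -/
def TopMixing (f : X → X) : Prop :=
  ∀ U V : Set X, IsOpen U → IsOpen V → U.Nonempty → V.Nonempty →
    ∃ N, ∀ n ≥ N, (f^[n] '' U ∩ V).Nonempty

end Defs

/-! ### Counting words -/

/-- The number of words within Hamming distance `K/16` of a given word. -/
lemma ball_card {K : ℕ} (w : Fin K → Bool) (S : Finset (Fin K → Bool))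
    (hS : ∀ v ∈ S, 16 * (Finset.univ.filter fun j => w j ≠ v j).card ≤ K) :
    (S.card : ℝ) ≤ (4 / 3 : ℝ) ^ K := by
  set t : ℝ := (4 / 5) ^ 16 with ht
  have ht0 : 0 < t := by positivity
  have h1 : ∑ v : Fin K → Bool, t ^ (Finset.univ.filter fun j => w j ≠ v j).card
      = (1 + t) ^ K := by
    have h2 : ∀ v : Fin K → Bool, t ^ (Finset.univ.filter fun j => w j ≠ v j).card
        = ∏ j, (if w j ≠ v j then t else 1) := by
      intro v
      rw [Finset.prod_ite]
      simp
    simp_rw [h2]
    have h3 := Finset.prod_univ_sum (fun _ : Fin K => (Finset.univ : Finset Bool))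
      (fun j b => if w j ≠ b then t else (1 : ℝ))
    rw [Fintype.piFinset_univ] at h3
    rw [← h3]
    have h4 : ∀ j, ∑ b : Bool, (if w j ≠ b then t else (1 : ℝ)) = 1 + t := by
      intro j
      cases w j <;> simp [add_comm]
    simp_rw [h4]
    simp
  have h2 : (S.card : ℝ) * (4 / 5) ^ K ≤ (1 + t) ^ K := by
    rw [← h1, ← nsmul_eq_mul, ← Finset.sum_const]
    calc ∑ _v ∈ S, (4 / 5 : ℝ) ^ K
        ≤ ∑ v ∈ S, t ^ (Finset.univ.filter fun j => w j ≠ v j).card := by
          apply Finset.sum_le_sum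
          intro v hv
          rw [ht, ← pow_mul]
          exact pow_le_pow_of_le_one (by norm_num) (by norm_num) (hS v hv)
      _ ≤ _ := Finset.sum_le_sum_of_subset_of_nonneg (Finset.subset_univ S)
          (fun v _ _ => by positivity)
  have h5 : (4 / 5 : ℝ) ^ K * (4 / 3) ^ K ≥ (1 + t) ^ K := by
    rw [← mul_pow]
    apply pow_le_pow_left₀ (by positivity)
    rw [ht]
    norm_num
  have h6 : (0 : ℝ) < (4 / 5) ^ K := by positivity
  have h7 : (S.card : ℝ) * (4 / 5) ^ K ≤ (4 / 3) ^ K * (4 / 5) ^ K := by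
    rw [mul_comm ((4 / 3 : ℝ) ^ K)]
    linarith
  exact le_of_mul_le_mul_right h7 h6

/-- splitting a long sum into blocks -/
lemma sum_blocks (F : ℕ → ℕ → ℝ) {M : ℕ} (hM : 0 < M) (K : ℕ) :
    ∑ i ∈ range (K * M), F (i / M) (i % M) = ∑ j ∈ range K, ∑ r ∈ range M, F j r := by
  induction K with
  | zero => simp
  | succ K ih =>
    rw [Nat.succ_mul, Finset.sum_range_add, ih, Finset.sum_range_succ]
    congr 1
    apply Finset.sum_congr rfl
    intro i hi
    have hi' := Finset.mem_range.mp hi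
    rw [mul_comm K M, Nat.mul_add_div hM, Nat.div_eq_of_lt hi', Nat.mul_add_mod,
      Nat.mod_eq_of_lt hi', Nat.add_zero]

section Main

variable {X : Type*} [MetricSpace X]

/-- free concatenation of blocks of length `M`, in average. -/
def Star (f : X → X) (e : ℝ) (M : ℕ) : Prop :=
  ∀ K : ℕ, 1 ≤ K → ∀ p : ℕ → X, ∃ z : X,
    ∑ i ∈ range (K * M), dist (f^[i] z) (f^[i % M] (p (i / M))) < e * (K * M : ℕ)

open Dynamics ExpGrowth in
lemma entropy_pos (f : X → X) {c : ℝ} (hc : 0 < c)
    (hxy : ∀ M : ℕ, 1 ≤ M → ∃ x y : X, c * M ≤ ∑ i ∈ range M, dist (f^[i] x) (f^[i] y))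
    (hstar : ∃ M : ℕ, 1 ≤ M ∧ Star f (c / 64) M) : 0 < coverEntropy f (Set.univ : Set X) := by
  classical
  obtain ⟨M, hM, hS⟩ := hstar
  obtain ⟨x, y, hxyM⟩ := hxy M hM
  have hMpos : (0 : ℝ) < M := by exact_mod_cast hM
  set e : ℝ := c / 64 with he
  have he0 : 0 < e := by positivity
  set U : SetRel X X := {p : X × X | dist p.1 p.2 < e} with hU
  have hUu : U ∈ uniformity X := Metric.dist_mem_uniformity he0
  refine lt_of_lt_of_le ?_ (coverEntropyEntourage_le_coverEntropy f Set.univ hUu)
  -- lower bound for the covering numbers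
  have key : ∀ K : ℕ, 1 ≤ K → ∀ E : Finset X, IsDynCoverOf f Set.univ U (M * K) (E : Set X) →
      (3 / 2 : ℝ) ^ K ≤ E.card := by
    intro K hK E hE
    have hKpos : (0 : ℝ) < K := by exact_mod_cast hK
    -- words
    let p : (Fin K → Bool) → ℕ → X := fun w j =>
      if h : j < K then (if w ⟨j, h⟩ then x else y) else x
    choose z hz using fun w : Fin K → Bool => hS K hK (p w)
    have hcov : ∀ w : Fin K → Bool, ∃ s ∈ E, ∀ k < M * K, dist (f^[k] (z w)) (f^[k] s) < e := by
      intro w
      obtain ⟨s, hs, hsU⟩ := hE (Set.mem_univ (z w))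
      exact ⟨s, hs, fun k hk => mem_dynEntourage.mp hsU k hk⟩
    choose s hsE hs using hcov
    -- fibres are small
    have hfib : ∀ w v : Fin K → Bool, s w = s v →
        16 * (Finset.univ.filter fun j => w j ≠ v j).card ≤ K := by
      intro w v hwv
      have h1 : ∑ i ∈ range (K * M), dist (f^[i % M] (p w (i / M))) (f^[i % M] (p v (i / M)))
          ≤ 4 * e * (K * M : ℕ) := by
        calc ∑ i ∈ range (K * M), dist (f^[i % M] (p w (i / M))) (f^[i % M] (p v (i / M)))
            ≤ ∑ i ∈ range (K * M), (dist (f^[i] (z w)) (f^[i % M] (p w (i / M))) +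
                dist (f^[i] (z v)) (f^[i % M] (p v (i / M))) + 2 * e) := by
              apply Finset.sum_le_sum
              intro i hi
              have hi' : i < M * K := by rw [mul_comm]; exact Finset.mem_range.mp hi
              have h2 := hs w i hi'
              have h3 := hs v i hi'
              rw [hwv] at h2
              have t1 := dist_triangle (f^[i % M] (p w (i / M))) (f^[i] (z w))
                (f^[i % M] (p v (i / M)))
              have t2 := dist_triangle (f^[i] (z w)) (f^[i] (s v)) (f^[i % M] (p v (i / M)))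
              have t3 := dist_triangle (f^[i] (s v)) (f^[i] (z v)) (f^[i % M] (p v (i / M)))
              rw [dist_comm] at t1
              rw [dist_comm (f^[i] (s v)) (f^[i] (z v))] at t3
              rw [dist_comm (f^[i % M] (p w (i / M))) (f^[i] (z w))] at t1
              rw [dist_comm (f^[i % M] (p v (i / M))) (f^[i % M] (p w (i / M)))] at t1
              linarith
          _ = ∑ i ∈ range (K * M), dist (f^[i] (z w)) (f^[i % M] (p w (i / M))) +
              ∑ i ∈ range (K * M), dist (f^[i] (z v)) (f^[i % M] (p v (i / M))) +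
              (K * M : ℕ) * (2 * e) := by
              rw [Finset.sum_add_distrib, Finset.sum_add_distrib, Finset.sum_const,
                Finset.card_range, nsmul_eq_mul]
          _ ≤ e * (K * M : ℕ) + e * (K * M : ℕ) + (K * M : ℕ) * (2 * e) := by
              have := hz w
              have := hz v
              linarith
          _ = _ := by ring
      rw [sum_blocks (fun j r => dist (f^[r] (p w j)) (f^[r] (p v j))) hM K] at h1
      have h2 : ((Finset.univ.filter fun j => w j ≠ v j).card : ℝ) * (c * M) ≤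
          ∑ j ∈ range K, ∑ r ∈ range M, dist (f^[r] (p w j)) (f^[r] (p v j)) := by
        rw [Finset.sum_range fun j => ∑ r ∈ range M, dist (f^[r] (p w j)) (f^[r] (p v j)),
          ← nsmul_eq_mul, ← Finset.sum_const]
        calc ∑ _j ∈ Finset.univ.filter (fun j => w j ≠ v j), c * (M : ℝ)
            ≤ ∑ j ∈ Finset.univ.filter (fun j => w j ≠ v j),
              ∑ r ∈ range M, dist (f^[r] (p w j)) (f^[r] (p v j)) := by
              apply Finset.sum_le_sum
              intro j hj
              have hj' : w j ≠ v j := (Finset.mem_filter.mp hj).2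
              have hpw : p w j = if w j then x else y := by
                simp only [p, j.2, dif_pos]
              have hpv : p v j = if v j then x else y := by
                simp only [p, j.2, dif_pos]
              rw [hpw, hpv]
              cases hw : w j <;> cases hv : v j
              · exact absurd (hw.trans hv.symm) hj'
              · simp only [Bool.false_eq_true, if_false, if_true]
                refine hxyM.trans (le_of_eq ?_)
                exact Finset.sum_congr rfl fun i _ => dist_comm _ _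
              · simpa using hxyM
              · exact absurd (hw.trans hv.symm) hj'
          _ ≤ _ := Finset.sum_le_sum_of_subset_of_nonneg (Finset.subset_univ _)
              (fun j _ _ => Finset.sum_nonneg fun r _ => dist_nonneg)
      have h3 : ((Finset.univ.filter fun j => w j ≠ v j).card : ℝ) * (c * M) ≤
          (K : ℝ) / 16 * (c * M) := by
        refine (h2.trans h1).trans (le_of_eq ?_)
        rw [he]
        push_cast
        ring
      have h4 := le_of_mul_le_mul_right h3 (by positivity)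
      have h5 : (16 : ℝ) * ((Finset.univ.filter fun j => w j ≠ v j).card : ℝ) ≤ K := by linarith
      exact_mod_cast h5
    -- count
    have hcount : ((2 : ℝ) ^ K) ≤ E.card * (4 / 3 : ℝ) ^ K := by
      have h1 : (Finset.univ : Finset (Fin K → Bool)).card = 2 ^ K := by
        simp
      have h2 : ((Finset.univ : Finset (Fin K → Bool)).card : ℝ) =
          ∑ a ∈ E, ((Finset.univ.filter fun w => s w = a).card : ℝ) := by
        have h3 := Finset.card_eq_sum_card_fiberwise (f := s) (s := Finset.univ) (t := E)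
          (fun w _ => hsE w)
        rw [h3]
        push_cast
        rfl
      rw [h1] at h2
      push_cast at h2
      rw [h2, ← nsmul_eq_mul, ← Finset.sum_const]
      apply Finset.sum_le_sum
      intro a _
      rcases (Finset.univ.filter fun w => s w = a).eq_empty_or_nonempty with h | ⟨w, hw⟩
      · rw [h, Finset.card_empty, Nat.cast_zero]
        positivity
      · apply ball_card w
        intro v hv
        exact hfib w v ((Finset.mem_filter.mp hw).2.trans (Finset.mem_filter.mp hv).2.symm)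
    have h1 : (3 / 2 : ℝ) ^ K * (4 / 3) ^ K ≤ E.card * (4 / 3 : ℝ) ^ K := by
      rw [← mul_pow]
      norm_num
      norm_num at hcount
      exact hcount
    exact le_of_mul_le_mul_right h1 (by positivity)
  -- exponential growth
  have hmono : Monotone (fun n : ℕ => ((coverMincard f Set.univ U n : ℕ∞) : ENNReal)) :=
    fun a b hab => ENat.toENNReal_mono (coverMincard_monotone_time f Set.univ U hab)
  have hge : ∀ K : ℕ, 1 ≤ K →
      ((3 / 2 : NNReal) : ENNReal) ^ K ≤ ((coverMincard f Set.univ U (M * K) : ℕ∞) : ENNReal) := by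
    intro K hK
    rcases eq_or_ne (coverMincard f Set.univ U (M * K)) ⊤ with h | h
    · rw [h]; simp
    · obtain ⟨E, hE, hcard⟩ := (coverMincard_finite_iff f Set.univ U (M * K)).mp (lt_top_iff_ne_top.mpr h)
      rw [← hcard]
      have h1 := key K hK E hE
      have h2 : ((3 / 2 : NNReal)) ^ K ≤ (E.card : NNReal) := by
        rw [← NNReal.coe_le_coe]
        push_cast
        exact h1
      rw [← ENNReal.coe_pow]
      have h3 : (((E.card : ℕ∞)) : ENNReal) = ((E.card : NNReal) : ENNReal) := by simp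
      rw [h3]
      exact ENNReal.coe_le_coe.mpr h2
  have h1 := Monotone.expGrowthSup_comp_mul hmono (m := M) (by omega)
  have h2 : expGrowthSup (fun K : ℕ => ((3 / 2 : NNReal) : ENNReal) ^ K) ≤
      expGrowthSup (fun n : ℕ => ((coverMincard f Set.univ U (M * n) : ℕ∞) : ENNReal)) := by
    apply expGrowthSup_eventually_monotone
    filter_upwards [eventually_ge_atTop 1] with K hK
    exact hge K hK
  rw [expGrowthSup_pow, h1] at h2
  have h3 : (0 : EReal) < ENNReal.log ((3 / 2 : NNReal) : ENNReal) := by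
    rw [← ENNReal.log_one, ENNReal.log_lt_log_iff, ← ENNReal.coe_one, ENNReal.coe_lt_coe]
    rw [← NNReal.coe_lt_coe]
    norm_num
  have h4 : (0 : EReal) < M * expGrowthSup
      (fun n : ℕ => ((coverMincard f Set.univ U n : ℕ∞) : ENNReal)) := lt_of_lt_of_le h3 h2
  by_contra hcon
  push Not at hcon
  have h5 : (M : EReal) * expGrowthSup
      (fun n : ℕ => ((coverMincard f Set.univ U n : ℕ∞) : ENNReal)) ≤ 0 := by
    apply mul_nonpos_of_nonneg_of_nonpos
    · exact_mod_cast Nat.zero_le M
    · exact hcon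
  exact absurd h4 (not_lt.mpr h5)

/-! ### Points whose orbits are far apart in average -/

lemma exists_pair [CompactSpace X] [MeasurableSpace X] [BorelSpace X] [Nontrivial X] (f : X → X)
    (hf : Continuous f) (hmc : measureCenter f = Set.univ) :
    ∃ c > 0, ∀ M : ℕ, 1 ≤ M → ∃ x y : X, c * M ≤ ∑ i ∈ range M, dist (f^[i] x) (f^[i] y) := by
  obtain ⟨p, q, hpq⟩ := exists_pair_ne X
  have hd : 0 < dist p q := dist_pos.mpr hpq
  have hmeas : ∀ (a : X) (ρ : ℝ), 0 < ρ → ∃ μ : Measure X, IsProbabilityMeasure μ ∧ μ.map f = μ ∧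
      μ (Metric.ball a ρ) ≠ 0 := by
    intro a ρ hρ
    have ha : a ∈ measureCenter f := by rw [hmc]; trivial
    by_contra hcon
    apply ha
    refine ⟨Metric.ball a ρ, ⟨Metric.isOpen_ball, ?_⟩, Metric.mem_ball_self hρ⟩
    intro μ hμ hinv
    by_contra h
    exact hcon ⟨μ, hμ, hinv, h⟩
  obtain ⟨μ₁, hμ₁, hi₁, hU⟩ := hmeas p (dist p q / 3) (by positivity)
  obtain ⟨μ₂, hμ₂, hi₂, hV⟩ := hmeas q (dist p q / 3) (by positivity)
  have hmp₁ : MeasurePreserving f μ₁ μ₁ := ⟨hf.measurable, hi₁⟩
  have hmp₂ : MeasurePreserving f μ₂ μ₂ := ⟨hf.measurable, hi₂⟩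
  have hint : ∀ g : X × X → ℝ, Continuous g → Integrable g (μ₁.prod μ₂) := by
    intro g hg
    exact hg.integrable_of_hasCompactSupport (HasCompactSupport.of_compactSpace g)
  have hc0 : 0 < ∫ a, dist a.1 a.2 ∂(μ₁.prod μ₂) := by
    rw [integral_pos_iff_support_of_nonneg (fun a => dist_nonneg) (hint _ continuous_dist)]
    have hsub : (Metric.ball p (dist p q / 3)) ×ˢ (Metric.ball q (dist p q / 3)) ⊆
        Function.support (fun a : X × X => dist a.1 a.2) := by
      rintro ⟨u, v⟩ ⟨hu, hv⟩
      simp only [Function.mem_support]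
      intro h0
      have h1 : dist u p < dist p q / 3 := hu
      have h2 : dist v q < dist p q / 3 := hv
      have h3 := dist_triangle p u q
      have h4 := dist_triangle u v q
      rw [dist_comm p u] at h3
      have h0' : dist u v = 0 := h0
      linarith
    refine lt_of_lt_of_le ?_ (measure_mono hsub)
    rw [Measure.prod_prod]
    exact pos_iff_ne_zero.mpr (mul_ne_zero hU hV)
  refine ⟨∫ a, dist a.1 a.2 ∂(μ₁.prod μ₂), hc0, fun M _ => ?_⟩
  have hcont : ∀ i : ℕ, Continuous fun a : X × X => dist (f^[i] a.1) (f^[i] a.2) := fun i =>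
    ((hf.iterate i).comp continuous_fst).dist ((hf.iterate i).comp continuous_snd)
  have hsum : ∫ a, (∑ i ∈ range M, dist (f^[i] a.1) (f^[i] a.2)) ∂(μ₁.prod μ₂) =
      (∫ a, dist a.1 a.2 ∂(μ₁.prod μ₂)) * M := by
    rw [integral_finsetSum _ (fun i _ => hint _ (hcont i))]
    have h1 : ∀ i ∈ range M, ∫ a, dist (f^[i] a.1) (f^[i] a.2) ∂(μ₁.prod μ₂) =
        ∫ a, dist a.1 a.2 ∂(μ₁.prod μ₂) := by
      intro i _
      have hmp := (hmp₁.iterate i).prod (hmp₂.iterate i)
      have h2 := integral_map (μ := μ₁.prod μ₂) (φ := Prod.map f^[i] f^[i])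
        (f := fun a : X × X => dist a.1 a.2) hmp.measurable.aemeasurable
        (continuous_dist.aestronglyMeasurable)
      rw [hmp.map_eq] at h2
      rw [h2]
      rfl
    rw [Finset.sum_congr rfl h1, Finset.sum_const, Finset.card_range, nsmul_eq_mul, mul_comm]
  obtain ⟨a, ha⟩ := exists_integral_le
    (hint (fun a => ∑ i ∈ range M, dist (f^[i] a.1) (f^[i] a.2))
      (continuous_finsetSum _ fun i _ => hcont i))
  rw [hsum] at ha
  exact ⟨a.1, a.2, ha⟩

/-! ### Pseudo-orbits made of long blocks -/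

lemma exists_bound [CompactSpace X] : ∃ D : ℝ, 0 < D ∧ ∀ x y : X, dist x y ≤ D := by
  refine ⟨Metric.diam (Set.univ : Set X) + 1, by positivity, fun x y => ?_⟩
  have := Metric.dist_le_diam_of_mem (isCompact_univ (X := X)).isBounded (Set.mem_univ x)
    (Set.mem_univ y)
  linarith

/-- the error bound -/
lemma err_bound (f : X → X) {D : ℝ} (hD : ∀ x y : X, dist x y ≤ D) (hD0 : 0 < D) (r : ℕ → ℕ)
    (q : ℕ → X) (S A : ℕ)
    (h : ∀ i ≥ S, (r (i + 1) = r i + 1 ∧ q (i + 1) = q i) ∨ (r (i + 1) = 0 ∧ A ≤ r i + 1))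
    (n : ℕ) :
    A * (∑ i ∈ range n, dist (f (f^[r (i + S)] (q (i + S)))) (f^[r (i + S + 1)] (q (i + S + 1))))
      + D * r (n + S) ≤ D * (n + r S) := by
  induction n with
  | zero => simp
  | succ n ih =>
    rw [Finset.sum_range_succ]
    have e : n + 1 + S = n + S + 1 := by ring
    rw [e]
    push_cast
    rcases h (n + S) (by omega) with ⟨h1, h2⟩ | ⟨h1, h2⟩
    · rw [h1, h2, Function.iterate_succ_apply', dist_self]
      push_cast
      linarith
    · have h3 := hD (f (f^[r (n + S)] (q (n + S)))) (f^[r (n + S + 1)] (q (n + S + 1)))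
      have h4 : (A : ℝ) ≤ r (n + S) + 1 := by exact_mod_cast h2
      have h5 : (A : ℝ) * dist (f (f^[r (n + S)] (q (n + S))))
          (f^[r (n + S + 1)] (q (n + S + 1))) ≤ A * D :=
        mul_le_mul_of_nonneg_left h3 (Nat.cast_nonneg A)
      have h6 : (A : ℝ) * D ≤ (r (n + S) + 1) * D := mul_le_mul_of_nonneg_right h4 hD0.le
      have h7 : ((r (n + S + 1) : ℕ) : ℝ) = 0 := by rw [h1]; simp
      rw [h7]
      nlinarith

lemma step_mod {b : ℕ} (hb : 0 < b) (t : ℕ) :
    ((t + 1) % b = t % b + 1 ∧ (t + 1) / b = t / b) ∨ ((t + 1) % b = 0 ∧ t % b + 1 = b) := by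
  have h1 := Nat.div_add_mod t b
  have h2 := Nat.mod_lt t hb
  rcases Nat.lt_or_ge (t % b + 1) b with h | h
  · left
    have h3 : t + 1 = b * (t / b) + (t % b + 1) := by omega
    constructor
    · conv_lhs => rw [h3]
      rw [Nat.mul_add_mod, Nat.mod_eq_of_lt h]
    · conv_lhs => rw [h3]
      rw [Nat.mul_add_div hb, Nat.div_eq_of_lt h, Nat.add_zero]
  · right
    have h4 : t % b + 1 = b := by omega
    refine ⟨?_, h4⟩
    have h3 : t + 1 = b * (t / b + 1) := by rw [Nat.mul_add, Nat.mul_one]; omega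
    rw [h3, Nat.mul_mod_right]

/-! ### The average shadowing property -/

lemma star_of_ASP [CompactSpace X] (f : X → X) (h : ASP f) {e : ℝ} (he : 0 < e) :
    ∃ M : ℕ, 1 ≤ M ∧ Star f e M := by
  obtain ⟨D, hD0, hD⟩ := exists_bound (X := X)
  obtain ⟨δ, hδ, hs⟩ := h e he
  obtain ⟨N, hN⟩ := exists_nat_gt (2 * D / δ)
  have hN0 : (0 : ℝ) < N := lt_of_le_of_lt (by positivity) hN
  have hN1 : 1 ≤ N := by exact_mod_cast hN0
  refine ⟨N, hN1, ?_⟩
  intro K hK p
  set r : ℕ → ℕ := fun i => i % N with hr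
  set q : ℕ → X := fun i => p ((i / N) % K) with hq
  have hstep : ∀ i ≥ 0, (r (i + 1) = r i + 1 ∧ q (i + 1) = q i) ∨
      (r (i + 1) = 0 ∧ N ≤ r i + 1) := by
    intro i _
    rcases step_mod (b := N) hN1 i with ⟨h1, h2⟩ | ⟨h1, h2⟩
    · left
      exact ⟨h1, by simp only [hq, h2]⟩
    · right
      exact ⟨h1, h2.ge⟩
  have hpo : IsAvgPseudoOrbit f δ (fun i => f^[r i] (q i)) := by
    refine ⟨N, fun n hn k => ?_⟩
    have hb := err_bound f hD hD0 r q k N (fun i _ => hstep i (Nat.zero_le _)) n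
    have hrk : (r k : ℝ) ≤ N := by exact_mod_cast (Nat.mod_lt k hN1).le
    have hrn : (0 : ℝ) ≤ D * r (n + k) := by positivity
    have hn0 : (0 : ℝ) < n := lt_of_lt_of_le hN0 (by exact_mod_cast hn)
    have hnN : (N : ℝ) ≤ n := by exact_mod_cast hn
    unfold avg
    rw [div_lt_iff₀ hn0]
    have h1 : (N : ℝ) * (∑ i ∈ range n, dist (f (f^[r (i + k)] (q (i + k))))
        (f^[r (i + k + 1)] (q (i + k + 1)))) ≤ D * (n + N) := by
      have h2 : D * ((n : ℝ) + r k) ≤ D * (n + N) := by
        apply mul_le_mul_of_nonneg_left _ hD0.le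
        linarith
      linarith
    have h3 : D * (n + N) < N * (δ * n) := by
      have h4 : 2 * D < N * δ := by
        rwa [div_lt_iff₀ hδ] at hN
      nlinarith
    exact lt_of_mul_lt_mul_left (lt_of_le_of_lt h1 h3) hN0.le
  obtain ⟨y, hy⟩ := hs _ hpo
  unfold AvgShadows at hy
  have hev := eventually_lt_of_limsup_lt hy (by
    refine ⟨D, ?_⟩
    rw [eventually_map]
    filter_upwards [eventually_ge_atTop 1] with n hn
    have hn0 : (0 : ℝ) < n := by exact_mod_cast hn
    unfold avg
    rw [div_le_iff₀ hn0]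
    calc ∑ i ∈ range n, dist (f^[i] y) (f^[r i] (q i)) ≤ ∑ _i ∈ range n, D :=
          Finset.sum_le_sum fun i _ => hD _ _
      _ = D * n := by rw [Finset.sum_const, Finset.card_range, nsmul_eq_mul, mul_comm])
  rw [eventually_atTop] at hev
  obtain ⟨n₀, hn₀⟩ := hev
  have hKN : 0 < K * N := Nat.mul_pos hK hN1
  have hL := hn₀ ((n₀ + 1) * (K * N)) (by nlinarith)
  unfold avg at hL
  have hLpos : (0 : ℝ) < (((n₀ + 1) * (K * N) : ℕ) : ℝ) := by
    have : 0 < (n₀ + 1) * (K * N) := Nat.mul_pos (Nat.succ_pos _) hKN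
    exact_mod_cast this
  rw [div_lt_iff₀ hLpos] at hL
  have hsb := sum_blocks (fun l t => dist (f^[l * (K * N) + t] y)
    (f^[r (l * (K * N) + t)] (q (l * (K * N) + t)))) hKN (n₀ + 1)
  have hsb' : ∑ i ∈ range ((n₀ + 1) * (K * N)), dist (f^[i] y) (f^[r i] (q i)) =
      ∑ l ∈ range (n₀ + 1), ∑ t ∈ range (K * N), dist (f^[l * (K * N) + t] y)
        (f^[r (l * (K * N) + t)] (q (l * (K * N) + t))) := by
    rw [← hsb]
    apply Finset.sum_congr rfl
    intro i _
    rw [Nat.div_add_mod']
  rw [hsb'] at hL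
  obtain ⟨l, _, hl⟩ : ∃ l ∈ range (n₀ + 1), ∑ t ∈ range (K * N), dist (f^[l * (K * N) + t] y)
        (f^[r (l * (K * N) + t)] (q (l * (K * N) + t))) < e * (K * N : ℕ) := by
    apply Finset.exists_lt_of_sum_lt
    refine lt_of_lt_of_le hL (le_of_eq ?_)
    rw [Finset.sum_const, Finset.card_range, nsmul_eq_mul]
    push_cast
    ring
  refine ⟨f^[l * (K * N)] y, ?_⟩
  refine lt_of_le_of_lt (le_of_eq ?_) hl
  apply Finset.sum_congr rfl
  intro t ht
  have ht' : t < K * N := Finset.mem_range.mp ht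
  have e1 : f^[t] (f^[l * (K * N)] y) = f^[l * (K * N) + t] y := by
    rw [← Function.iterate_add_apply, add_comm]
  have e2 : r (l * (K * N) + t) = t % N := by
    simp only [hr]
    rw [← mul_assoc, mul_comm (l * K) N, Nat.mul_add_mod]
  have e3 : q (l * (K * N) + t) = p (t / N) := by
    simp only [hq]
    rw [← mul_assoc, mul_comm (l * K) N, Nat.mul_add_div hN1, mul_comm l K, Nat.mul_add_mod,
      Nat.mod_eq_of_lt]
    exact Nat.div_lt_of_lt_mul (by rwa [mul_comm] at ht')
  rw [e1, e2, e3]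

/-! ### The asymptotic average shadowing property -/

/-- The state machine: phase and time inside of the phase. -/
def st (L : ℕ → ℕ) : ℕ → ℕ × ℕ
  | 0 => (0, 0)
  | i + 1 => if (st L i).2 + 1 < L (st L i).1 then ((st L i).1, (st L i).2 + 1)
      else ((st L i).1 + 1, 0)

/-- The beginning of the phase. -/
def SS (L : ℕ → ℕ) : ℕ → ℕ
  | 0 => 0
  | m + 1 => SS L m + L m

lemma st_inv {L : ℕ → ℕ} (hL : ∀ m, 1 ≤ L m) (i : ℕ) : (st L i).2 < L (st L i).1 := by
  induction i with
  | zero => exact hL 0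
  | succ i ih =>
    rw [st]
    split_ifs with h
    · exact h
    · exact hL _

lemma st_mono (L : ℕ → ℕ) : Monotone fun i => (st L i).1 := by
  apply monotone_nat_of_le_succ
  intro i
  show (st L i).1 ≤ (st L (i + 1)).1
  rw [st]
  split_ifs
  · exact le_rfl
  · exact Nat.le_succ _

lemma st_SS {L : ℕ → ℕ} (hL : ∀ m, 1 ≤ L m) (m : ℕ) : ∀ t < L m, st L (SS L m + t) = (m, t) := by
  induction m with
  | zero =>
    intro t
    induction t with
    | zero => intro _; rfl
    | succ t ih =>
      intro ht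
      have h := ih (by omega)
      rw [← add_assoc, st, h]
      rw [if_pos ht]
  | succ m ihm =>
    intro t
    induction t with
    | zero =>
      intro _
      have h := ihm (L m - 1) (by have := hL m; omega)
      have e : SS L (m + 1) + 0 = SS L m + (L m - 1) + 1 := by
        have := hL m
        rw [SS]; omega
      rw [e, st, h, if_neg (by have := hL m; simp only; omega)]
    | succ t ih =>
      intro ht
      have h := ih (by omega)
      rw [← add_assoc, st, h]
      rw [if_pos ht]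

lemma SS_ge {L : ℕ → ℕ} (hL : ∀ m, 1 ≤ L m) (m : ℕ) : m ≤ SS L m := by
  induction m with
  | zero => exact Nat.zero_le _
  | succ m ih =>
    rw [SS]
    have := hL m
    omega

lemma avg_tendsto {a : ℕ → ℝ} (ha : ∀ i, 0 ≤ a i) {D : ℝ} (hD : 0 < D)
    (h : ∀ A : ℕ, 1 ≤ A → ∃ C : ℝ, ∀ᶠ n : ℕ in atTop, ∑ i ∈ range n, a i ≤ C + D * n / A) :
    Tendsto (avg a) atTop (𝓝 0) := by
  rw [Metric.tendsto_atTop]
  intro ε hε
  obtain ⟨A, hA⟩ := exists_nat_gt (2 * D / ε)
  have hA0 : (0 : ℝ) < A := lt_of_le_of_lt (by positivity) hA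
  obtain ⟨C, hC⟩ := h A (by exact_mod_cast hA0)
  obtain ⟨B, hB⟩ := exists_nat_gt (2 * |C| / ε)
  obtain ⟨N, hN⟩ := eventually_atTop.mp hC
  refine ⟨max N (B + 1), fun n hn => ?_⟩
  have hn1 : N ≤ n := le_trans (le_max_left _ _) hn
  have hn2 : B + 1 ≤ n := le_trans (le_max_right _ _) hn
  have hn0 : (0 : ℝ) < n := by
    have : 0 < n := by omega
    exact_mod_cast this
  have hBn : (B : ℝ) < n := by
    have : B < n := by omega
    exact_mod_cast this
  have hnn : 0 ≤ avg a n := div_nonneg (Finset.sum_nonneg fun i _ => ha i) hn0.le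
  rw [Real.dist_eq, sub_zero, abs_of_nonneg hnn]
  unfold avg
  rw [div_lt_iff₀ hn0]
  refine lt_of_le_of_lt (hN n hn1) ?_
  have h1 : D * n / A ≤ ε / 2 * n := by
    rw [div_le_iff₀ hA0]
    rw [div_lt_iff₀ hε] at hA
    nlinarith
  have h2 : C < ε / 2 * n := by
    rw [div_lt_iff₀ hε] at hB
    have := le_abs_self C
    nlinarith
  linarith

lemma star_of_AASP [CompactSpace X] (f : X → X) (h : AASP f) {e : ℝ} (he : 0 < e) :
    ∃ M : ℕ, 1 ≤ M ∧ Star f e M := by
  obtain ⟨D, hD0, hD⟩ := exists_bound (X := X)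
  by_contra hcon
  push Not at hcon
  have hfail : ∀ m : ℕ, ∃ K : ℕ, 1 ≤ K ∧ ∃ p : ℕ → X, ∀ z : X,
      e * (K * (m + 1) : ℕ) ≤
        ∑ i ∈ range (K * (m + 1)), dist (f^[i] z) (f^[i % (m + 1)] (p (i / (m + 1)))) := by
    intro m
    have h1 := hcon (m + 1) (by omega)
    unfold Star at h1
    push Not at h1
    obtain ⟨K, hK, p, hp⟩ := h1
    exact ⟨K, hK, p, hp⟩
  choose K hK p hp using hfail
  set L : ℕ → ℕ := fun m => K m * (m + 1) with hLdef
  have hL : ∀ m, 1 ≤ L m := fun m => Nat.mul_pos (hK m) (Nat.succ_pos m)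
  set r : ℕ → ℕ := fun i => (st L i).2 % ((st L i).1 + 1) with hr
  set q : ℕ → X := fun i => p (st L i).1 ((st L i).2 / ((st L i).1 + 1)) with hq
  have hstep : ∀ i A : ℕ, A ≤ (st L i).1 + 1 → (r (i + 1) = r i + 1 ∧ q (i + 1) = q i) ∨
      (r (i + 1) = 0 ∧ A ≤ r i + 1) := by
    intro i A hA
    by_cases hc : (st L i).2 + 1 < L (st L i).1
    · have hst : st L (i + 1) = ((st L i).1, (st L i).2 + 1) := by rw [st, if_pos hc]
      simp only [hr, hq, hst]
      rcases step_mod (b := (st L i).1 + 1) (Nat.succ_pos _) (st L i).2 with ⟨h1, h2⟩ | ⟨h1, h2⟩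
      · left; exact ⟨h1, by rw [h2]⟩
      · right; exact ⟨h1, by omega⟩
    · have hst : st L (i + 1) = ((st L i).1 + 1, 0) := by rw [st, if_neg hc]
      simp only [hr, hq, hst]
      right
      refine ⟨Nat.zero_mod _, ?_⟩
      have hinv := st_inv hL i
      have h1 : (st L i).2 + 1 = K (st L i).1 * ((st L i).1 + 1) := by
        have : L (st L i).1 = K (st L i).1 * ((st L i).1 + 1) := rfl
        omega
      rcases step_mod (b := (st L i).1 + 1) (Nat.succ_pos _) (st L i).2 with ⟨h2, _⟩ | ⟨_, h2⟩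
      · rw [h1, Nat.mul_mod_left] at h2
        omega
      · omega
  have hconv : Tendsto (avg fun i => dist (f (f^[r i] (q i))) (f^[r (i + 1)] (q (i + 1)))) atTop
      (𝓝 0) := by
    apply avg_tendsto (fun i => dist_nonneg) hD0
    intro A hA
    have hA0 : (0 : ℝ) < A := by exact_mod_cast hA
    set S := SS L A with hS
    refine ⟨D * S + D * r S / A, ?_⟩
    filter_upwards [eventually_ge_atTop S] with n hn
    obtain ⟨n', rfl⟩ := Nat.exists_eq_add_of_le hn
    rw [Finset.sum_range_add]
    have h1 : ∑ i ∈ range S, dist (f (f^[r i] (q i))) (f^[r (i + 1)] (q (i + 1))) ≤ D * S := by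
      calc _ ≤ ∑ _i ∈ range S, D := Finset.sum_le_sum fun i _ => hD _ _
        _ = D * S := by rw [Finset.sum_const, Finset.card_range, nsmul_eq_mul, mul_comm]
    have h2 := err_bound f hD hD0 r q S A (fun i hi => hstep i A (by
      have h3 : (st L S).1 ≤ (st L i).1 := st_mono L hi
      have h4 : st L (S + 0) = (A, 0) := st_SS hL A 0 (hL A)
      rw [add_zero] at h4
      rw [h4] at h3
      simp only at h3
      omega)) n'
    have h3 : ∑ x ∈ range n', dist (f (f^[r (S + x)] (q (S + x)))) (f^[r (S + x + 1)] (q (S + x + 1)))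
        = ∑ i ∈ range n', dist (f (f^[r (i + S)] (q (i + S)))) (f^[r (i + S + 1)] (q (i + S + 1))) := by
      apply Finset.sum_congr rfl
      intro i _
      rw [add_comm S i]
    rw [h3]
    have h4 : (0 : ℝ) ≤ D * r (n' + S) := by positivity
    have h5 : ∑ i ∈ range n', dist (f (f^[r (i + S)] (q (i + S))))
        (f^[r (i + S + 1)] (q (i + S + 1))) ≤ D * (n' + r S) / A := by
      rw [le_div_iff₀ hA0, mul_comm]
      linarith
    have h6 : D * ((n' : ℝ) + r S) / A ≤ D * r S / A + D * ((S + n' : ℕ) : ℝ) / A := by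
      rw [← add_div]
      apply div_le_div_of_nonneg_right _ hA0.le
      push_cast
      have : 0 ≤ D * (S : ℝ) := by positivity
      nlinarith
    linarith
  obtain ⟨y, hy⟩ := h _ hconv
  have hlow : ∀ m : ℕ, e * (SS L m : ℕ) ≤ ∑ i ∈ range (SS L m), dist (f^[i] y) (f^[r i] (q i)) := by
    intro m
    induction m with
    | zero => simp [SS]
    | succ m ih =>
      rw [SS, Finset.sum_range_add]
      push_cast
      have h1 := hp m (f^[SS L m] y)
      have h2 : ∑ x ∈ range (L m), dist (f^[SS L m + x] y) (f^[r (SS L m + x)] (q (SS L m + x))) =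
          ∑ i ∈ range (K m * (m + 1)), dist (f^[i] (f^[SS L m] y))
            (f^[i % (m + 1)] (p m (i / (m + 1)))) := by
        apply Finset.sum_congr rfl
        intro i hi
        have hi' : i < L m := Finset.mem_range.mp hi
        have h3 := st_SS hL m i hi'
        simp only [hr, hq, h3]
        rw [← Function.iterate_add_apply, add_comm i]
      rw [h2]
      have h3 : (L m : ℝ) = ((K m * (m + 1) : ℕ) : ℝ) := rfl
      rw [h3]
      linarith
  have hev := (hy.eventually (gt_mem_nhds he))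
  obtain ⟨N, hN⟩ := eventually_atTop.mp hev
  have h1 := hN (SS L (N + 1)) (le_trans (Nat.le_succ N) (SS_ge hL (N + 1)))
  have h2 : (0 : ℝ) < (SS L (N + 1) : ℕ) := by
    have := SS_ge hL (N + 1)
    exact_mod_cast (by omega : 0 < SS L (N + 1))
  unfold avg at h1
  rw [div_lt_iff₀ h2] at h1
  exact absurd (hlow (N + 1)) (not_le.mpr h1)

/-! ### Almost specification -/

lemma star_of_almostSpec [CompactSpace X] (f : X → X) (h : AlmostSpec f) {e : ℝ} (he : 0 < e) :
    ∃ M : ℕ, 1 ≤ M ∧ Star f e M := by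
  classical
  obtain ⟨D, hD0, hD⟩ := exists_bound (X := X)
  obtain ⟨ε₀, g, hg, kg, hkg, hspec⟩ := h
  have hlim : ∀ ε > 0, Tendsto (fun n : ℕ => (g n ε : ℝ) / n) atTop (𝓝 0) := by
    intro ε hε
    rcases le_or_gt ε ε₀ with h1 | h1
    · exact hg.lim ε hε h1
    · refine (hg.lim ε₀ hg.pos le_rfl).congr' ?_
      filter_upwards [eventually_ge_atTop 1] with n hn
      rw [hg.ext n hn ε h1]
  have hev : ∀ᶠ n : ℕ in atTop, (g n (e / 2) : ℝ) / n < e / (2 * D) :=
    (hlim (e / 2) (by positivity)).eventually (gt_mem_nhds (by positivity))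
  obtain ⟨M, ⟨hM1, hMk⟩, hMg⟩ := (((eventually_ge_atTop 1).and
    (eventually_ge_atTop (kg (e / 2)))).and hev).exists
  have hM0 : (0 : ℝ) < M := by exact_mod_cast hM1
  refine ⟨M, hM1, ?_⟩
  intro K hK p
  obtain ⟨m, rfl⟩ : ∃ m, K = m + 1 := ⟨K - 1, by omega⟩
  obtain ⟨z, hz⟩ := hspec m (fun _ => e / 2) (fun j => p j) (fun _ => M)
    (fun _ => by positivity) (fun _ => hM1) (fun _ => hMk)
  refine ⟨z, ?_⟩
  have h1 := sum_blocks (fun j t => dist (f^[j * M + t] z) (f^[t] (p j))) hM1 (m + 1)
  have h2 : ∑ i ∈ range ((m + 1) * M), dist (f^[i] z) (f^[i % M] (p (i / M))) =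
      ∑ j ∈ range (m + 1), ∑ t ∈ range M, dist (f^[j * M + t] z) (f^[t] (p j)) := by
    rw [← h1]
    apply Finset.sum_congr rfl
    intro i _
    rw [Nat.div_add_mod']
  rw [h2]
  have hblock : ∀ j < m + 1, ∑ t ∈ range M, dist (f^[j * M + t] z) (f^[t] (p j)) < e * M := by
    intro j hj
    obtain ⟨Λ, hΛ, hcard, hclose⟩ := hz ⟨j, hj⟩
    have hsum : ∑ i ∈ Finset.Iio (⟨j, hj⟩ : Fin (m + 1)), M = j * M := by
      rw [Finset.sum_const, Fin.card_Iio, smul_eq_mul]
    rw [hsum] at hclose
    have hΛM : Λ.card ≤ M := by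
      have := Finset.card_le_card hΛ
      rwa [Finset.card_range] at this
    have h3 : ∀ t ∈ range M, dist (f^[j * M + t] z) (f^[t] (p j)) ≤
        if t ∈ Λ then e / 2 else D := by
      intro t _
      split_ifs with ht
      · have := (hclose t ht).le
        rw [dist_comm, ← Function.iterate_add_apply, add_comm t] at this
        exact this
      · exact hD _ _
    refine lt_of_le_of_lt (Finset.sum_le_sum h3) ?_
    rw [Finset.sum_ite, Finset.sum_const, Finset.sum_const, nsmul_eq_mul, nsmul_eq_mul]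
    have h4 : (Finset.filter (fun t => t ∈ Λ) (range M)) = Λ := by
      ext t
      simp only [Finset.mem_filter]
      exact ⟨fun h => h.2, fun h => ⟨hΛ h, h⟩⟩
    have h5 : ((Finset.filter (fun t => t ∉ Λ) (range M)).card : ℝ) ≤ g M (e / 2) := by
      have h6 : (Finset.filter (fun t => t ∉ Λ) (range M)).card + Λ.card = M := by
        have h7 := Finset.card_filter_add_card_filter_not (s := range M) (fun t => t ∈ Λ)
        rw [h4, Finset.card_range] at h7
        omega
      have h8 : (Finset.filter (fun t => t ∉ Λ) (range M)).card ≤ g M (e / 2) := by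
        have : M - g M (e / 2) ≤ Λ.card := hcard
        omega
      exact_mod_cast h8
    rw [h4]
    have h9 : (Λ.card : ℝ) ≤ M := by exact_mod_cast hΛM
    have h10 : (g M (e / 2) : ℝ) * D < e / 2 * M := by
      rw [div_lt_div_iff₀ hM0 (by positivity)] at hMg
      nlinarith
    nlinarith
  calc ∑ j ∈ range (m + 1), ∑ t ∈ range M, dist (f^[j * M + t] z) (f^[t] (p j))
      < ∑ _j ∈ range (m + 1), e * M := by
        apply Finset.sum_lt_sum_of_nonempty ⟨0, by simp⟩
        intro j hj
        exact hblock j (Finset.mem_range.mp hj)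
    _ = e * ((m + 1) * M : ℕ) := by
        rw [Finset.sum_const, Finset.card_range, nsmul_eq_mul]
        push_cast
        ring

/-- Let `(X,f)` be a system with any one of the average shadowing property, the asymptotic average
shadowing property and the almost specification property, whose measure center is all of `X`.
Then `f` is topologically mixing or has positive topological entropy; moreover the entropy is
positive as soon as `X` has more than one point. -/
theorem result {X : Type*} [MetricSpace X] [CompactSpace X] [MeasurableSpace X] [BorelSpace X]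
    (f : X → X) (hf : Continuous f) (hP : ASP f ∨ AASP f ∨ AlmostSpec f)
    (hmc : measureCenter f = Set.univ) :
    (TopMixing f ∨ 0 < Dynamics.coverEntropy f (Set.univ : Set X)) ∧
      (Nontrivial X → 0 < Dynamics.coverEntropy f (Set.univ : Set X)) := by
  have key : Nontrivial X → 0 < Dynamics.coverEntropy f (Set.univ : Set X) := by
    intro hX
    obtain ⟨c, hc, hxy⟩ := exists_pair f hf hmc
    refine entropy_pos f hc hxy ?_
    have he : 0 < c / 64 := by positivity
    rcases hP with h | h | h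
    · exact star_of_ASP f h he
    · exact star_of_AASP f h he
    · exact star_of_almostSpec f h he
  refine ⟨?_, key⟩
  rcases subsingleton_or_nontrivial X with h | h
  · left
    intro U V _ _ hU hV
    refine ⟨0, fun n _ => ?_⟩
    obtain ⟨u, hu⟩ := hU
    obtain ⟨v, hv⟩ := hV
    exact ⟨f^[n] u, ⟨u, hu, rfl⟩, by rwa [Subsingleton.elim (f^[n] u) v]⟩
  · exact Or.inr (key h)

end Main

end Pool.Agent.Results.MP_090ff9_an.AvgShadowingEntropy
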